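import Pool.Agent.Helper88.PhiO
import Pool.Agent.Helper64.Phi4.Decay
import Pool.Agent.Helper64.Phi4.EvenExp
import Pool.Agent.Helper64.Phi4.ThreeAlg
import Pool.Agent.Helper78.Phi4.Pair

/-! Row F2 of project MP_9074a0_PAIR: the expansion at orders two and three. -/

set_option autoImplicit false

namespace Phi4

open Real Filter MeasureTheory intervalIntegral Set

namespace h89

/-! ### arithmetic of the rates -/

theorem om_inj {T : ℝ} (hT : 0 < T) {i j : ℕ} (h : om T i ^ 2 = om T j ^ 2) : i = j := by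
  have h1 : om T i = om T j := by
    have hi := om_nonneg hT i
    have hj := om_nonneg hT j
    exact (sq_eq_sq₀ hi hj).1 h
  unfold om at h1
  have h2 : (0:ℝ) < 2 * π / T := by positivity
  have h3 : (i:ℝ) = j := mul_right_cancel₀ h2.ne' h1
  exact_mod_cast h3

theorem lm_inj {T : ℝ} (hT : 0 < T) {i j : ℕ} (hi : om T i ^ 2 < 2) (hj : om T j ^ 2 < 2)
    (h : lm T i = lm T j) : i = j := by
  apply om_inj hT
  have h1 := lm_sq hi.le
  have h2 := lm_sq hj.le
  rw [h] at h1
  linarith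

theorem lm_eq {T lam : ℝ} {n : ℕ} (hlam : 0 < lam) (h1 : lam ^ 2 = 2 - om T n ^ 2) :
    lm T n = lam := by
  unfold lm
  rw [← h1]
  exact sqrt_sq hlam.le

theorem le_JJ {T : ℝ} (hT : 0 < T) {j : ℕ} (h : om T j ^ 2 < 2) : j ≤ JJ T := by
  unfold JJ
  apply Nat.le_floor
  have h0 : (0:ℝ) < 2 * π / T := by positivity
  rw [le_div_iff₀ h0]
  have h1 : om T j ≤ √2 := le_sqrt_of_sq_le h.le
  exact h1

theorem gap {ι : Type} (K : Finset ι) (P : ι → Prop) (f : ι → ℝ) (a : ℝ)
    (h : ∀ i ∈ K, P i → a < f i) : ∃ δ : ℝ, 0 < δ ∧ ∀ i ∈ K, P i → a + δ ≤ f i := by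
  classical
  induction K using Finset.induction_on with
  | empty => exact ⟨1, one_pos, fun i hi => absurd hi (Finset.notMem_empty i)⟩
  | insert b s hb ih =>
    obtain ⟨δ, hδ, h1⟩ := ih fun i hi => h i (Finset.mem_insert_of_mem hi)
    by_cases hP : P b
    · have h2 := h b (Finset.mem_insert_self _ _) hP
      refine ⟨min δ (f b - a), lt_min hδ (by linarith), fun i hi hPi => ?_⟩
      rcases Finset.mem_insert.1 hi with rfl | hi'
      · linarith [min_le_right δ (f i - a)]
      · linarith [min_le_left δ (f b - a), h1 i hi' hPi]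
    · refine ⟨δ, hδ, fun i hi hPi => ?_⟩
      rcases Finset.mem_insert.1 hi with rfl | hi'
      · exact absurd hPi hP
      · exact h1 i hi' hPi

/-! ### sums of modes -/

/-- a sum of modes in which every active rate is at least `σ` -/
theorem eb_modes {T σ : ℝ} (K : Finset ℕ) (B : ℕ → ℝ) (f : ℕ → ℝ → ℝ) (hf : ∀ j, Continuous (f j))
    (h : ∀ j ∈ K, B j ≠ 0 → σ ≤ lm T j) :
    EB T σ (fun x t => ∑ j ∈ K, B j * exp (-lm T j * x) * f j t) := by
  apply EB.sum
  intro j hj
  by_cases hB : B j = 0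
  · exact (EB.zero T σ).congr fun x t _ _ => by rw [hB]; ring
  · have h1 : EB T (lm T j) (fun x t => (B j * f j t) * exp (-lm T j * x)) :=
      EB.profile (continuous_const.mul (hf j))
    exact (h1.mono (h j hj hB)).congr fun x t _ _ => by ring

/-! ### partial derivatives of the explicit part -/

theorem Dx_msum (T : ℝ) (B : ℕ → ℝ) : Dx (msum T B) = fun x t =>
    ∑ j ∈ Finset.range (JJ T + 1), (B j * -lm T j) * exp (-lm T j * x) * sin (om T j * t) := by
  funext x t
  unfold Dx msum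
  apply HasDerivAt.deriv
  apply HasDerivAt.fun_sum
  intro j _
  have h1 : HasDerivAt (fun y : ℝ => -lm T j * y) (-lm T j) x := by
    simpa using (hasDerivAt_id x).const_mul (-lm T j)
  exact ((h1.exp.const_mul (B j)).mul_const (sin (om T j * t))).congr_deriv (by ring)

theorem Dt_msum (T : ℝ) (B : ℕ → ℝ) : Dt (msum T B) = fun x t =>
    ∑ j ∈ Finset.range (JJ T + 1), (B j * om T j) * exp (-lm T j * x) * cos (om T j * t) := by
  funext x t
  unfold Dt msum
  apply HasDerivAt.deriv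
  apply HasDerivAt.fun_sum
  intro j _
  exact ((hasDerivAt_sin_om (om T j) t).const_mul (B j * exp (-lm T j * x))).congr_deriv (by ring)

theorem Dxx_msum (T : ℝ) (B : ℕ → ℝ) : Dx (Dx (msum T B)) = fun x t =>
    ∑ j ∈ Finset.range (JJ T + 1), (B j * lm T j ^ 2) * exp (-lm T j * x) * sin (om T j * t) := by
  rw [Dx_msum]
  funext x t
  unfold Dx
  apply HasDerivAt.deriv
  apply HasDerivAt.fun_sum
  intro j _
  have h1 : HasDerivAt (fun y : ℝ => -lm T j * y) (-lm T j) x := by
    simpa using (hasDerivAt_id x).const_mul (-lm T j)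
  exact ((h1.exp.const_mul (B j * -lm T j)).mul_const (sin (om T j * t))).congr_deriv (by ring)

theorem Dtt_msum (T : ℝ) (B : ℕ → ℝ) : Dt (Dt (msum T B)) = fun x t =>
    ∑ j ∈ Finset.range (JJ T + 1), (B j * -om T j ^ 2) * exp (-lm T j * x) * sin (om T j * t) := by
  rw [Dt_msum]
  funext x t
  unfold Dt
  apply HasDerivAt.deriv
  apply HasDerivAt.fun_sum
  intro j _
  exact ((hasDerivAt_cos_om (om T j) t).const_mul (B j * om T j * exp (-lm T j * x))).congr_deriv
    (by ring)

theorem msum_eqn {T : ℝ} (hT : 0 < T) (B : ℕ → ℝ) (x t : ℝ) :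
    Dx (Dx (msum T B)) x t = Dt (Dt (msum T B)) x t + 2 * msum T B x t := by
  rw [Dxx_msum, Dtt_msum]
  unfold msum
  rw [Finset.mul_sum, ← Finset.sum_add_distrib]
  apply Finset.sum_congr rfl
  intro j hj
  have h1 : om T j ^ 2 ≤ 2 := om_JJ_le hT (by have := Finset.mem_range.1 hj; omega)
  rw [lm_sq h1]
  ring

theorem smooth_msum (T : ℝ) (B : ℕ → ℝ) :
    ContDiff ℝ 2 (fun p : ℝ × ℝ => msum T B p.1 p.2) := by
  unfold msum
  fun_prop

theorem msum_refl {T : ℝ} (hT : 0 < T) (B : ℕ → ℝ) (x t : ℝ) :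
    msum T B x (T - t) = -msum T B x t := by
  unfold msum
  rw [← Finset.sum_neg_distrib]
  apply Finset.sum_congr rfl
  intro j _
  have : sin (om T j * (T - t)) = -sin (om T j * t) := by
    rw [mul_sub, sin_sub, sin_om_T hT, cos_om_T hT]; ring
  rw [this]; ring

theorem msum_zero (T : ℝ) (B : ℕ → ℝ) (x : ℝ) : msum T B x 0 = 0 := by
  unfold msum; simp

/-! ### profile times exponential -/

theorem Dx_prof (κ : ℝ) (F : ℝ → ℝ) :
    Dx (fun x t => F t * exp (-κ * x)) = fun x t => -κ * F t * exp (-κ * x) := by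
  funext x t
  unfold Dx
  apply HasDerivAt.deriv
  have h1 : HasDerivAt (fun y : ℝ => -κ * y) (-κ) x := by
    simpa using (hasDerivAt_id x).const_mul (-κ)
  exact (h1.exp.const_mul (F t)).congr_deriv (by ring)

theorem Dt_prof (κ : ℝ) {F F' : ℝ → ℝ} (hF : ∀ t, HasDerivAt F (F' t) t) :
    Dt (fun x t => F t * exp (-κ * x)) = fun x t => F' t * exp (-κ * x) := by
  funext x t
  unfold Dt
  exact ((hF t).mul_const _).deriv

/-! ### linearity of the partial derivatives -/

theorem Dx_sub {f g : ℝ → ℝ → ℝ} (hf : ContDiff ℝ 1 (fun p : ℝ × ℝ => f p.1 p.2))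
    (hg : ContDiff ℝ 1 (fun p : ℝ × ℝ => g p.1 p.2)) :
    Dx (fun x t => f x t - g x t) = fun x t => Dx f x t - Dx g x t := by
  funext x t
  exact ((hasDerivAt_x hf x t).sub (hasDerivAt_x hg x t)).deriv

theorem Dt_sub {f g : ℝ → ℝ → ℝ} (hf : ContDiff ℝ 1 (fun p : ℝ × ℝ => f p.1 p.2))
    (hg : ContDiff ℝ 1 (fun p : ℝ × ℝ => g p.1 p.2)) :
    Dt (fun x t => f x t - g x t) = fun x t => Dt f x t - Dt g x t := by
  funext x t
  exact ((hasDerivAt_t hf x t).sub (hasDerivAt_t hg x t)).deriv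

/-- subtracting an explicit solution -/
theorem osol_sub {T : ℝ} {a G s H : ℝ → ℝ → ℝ} (O : OSol T a G) (S : OSol T s H) :
    OSol T (fun x t => a x t - s x t) (fun x t => G x t - H x t) where
  hT := O.hT
  smooth := O.smooth.sub S.smooth
  eqn := by
    intro x t
    rw [Dx_sub O.c1 S.c1, Dx_sub (c2_Dx O.smooth) (c2_Dx S.smooth), Dt_sub O.c1 S.c1,
      Dt_sub (c2_Dt O.smooth) (c2_Dt S.smooth)]
    simp only
    rw [O.eqn, S.eqn]
    ring
  zero := fun x => by rw [O.zero, S.zero]; ring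
  zeroT := fun x => by rw [O.zeroT, S.zeroT]; ring
  refl := fun x t => by rw [O.refl, S.refl]; ring

theorem osol_msum {T : ℝ} (hT : 0 < T) (B : ℕ → ℝ) : OSol T (msum T B) (fun _ _ => 0) where
  hT := hT
  smooth := smooth_msum T B
  eqn := fun x t => by rw [msum_eqn hT]; ring
  zero := msum_zero T B
  zeroT := fun x => by
    have := msum_refl hT B x 0
    rw [sub_zero, msum_zero] at this
    rw [this]; norm_num
  refl := msum_refl hT B

theorem osol_prof {T κ : ℝ} (hT : 0 < T) {F F' A : ℝ → ℝ} (hF : ContDiff ℝ 2 F)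
    (h1 : ∀ t, HasDerivAt F (F' t) t) (h2 : ∀ t, HasDerivAt F' ((κ ^ 2 - 2) * F t - A t) t)
    (h0 : F 0 = 0) (hr : ∀ t, F (T - t) = -F t) :
    OSol T (fun x t => F t * exp (-κ * x)) (fun x t => A t * exp (-κ * x)) where
  hT := hT
  smooth := by
    have : ContDiff ℝ 2 (fun p : ℝ × ℝ => F p.2) := hF.comp contDiff_snd
    fun_prop
  eqn := by
    intro x t
    rw [Dx_prof, Dt_prof κ h1, Dt_prof κ h2]
    have e : Dx (fun x t => -κ * F t * exp (-κ * x)) x t = κ ^ 2 * F t * exp (-κ * x) := by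
      have := congrFun (congrFun (Dx_prof κ (fun t => -κ * F t)) x) t
      rw [this]; ring
    rw [e]
    ring
  zero := fun x => by rw [h0]; ring
  zeroT := fun x => by
    have := hr 0
    rw [sub_zero, h0] at this
    rw [this]; ring
  refl := fun x t => by rw [hr]; ring

theorem nrm_of_eb {T σ : ℝ} (hT : 0 ≤ T) {f : ℝ → ℝ → ℝ} (hc : ∀ x, Continuous (f x))
    (h : EB T σ f) : ∃ C X : ℝ, ∀ x, X ≤ x → nrm T (f x) ≤ C * exp (-σ * x) := by
  obtain ⟨C, X, hC, hX, h⟩ := h.nonneg_const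
  refine ⟨√T * C, X, fun x hx => ?_⟩
  have := nrm_le_of_bound (T := T) (M := C * exp (-σ * x)) hT (by positivity) (hc x)
    (fun t h0 h1 => h x hx t h0 h1)
  linarith

theorem smooth_O3 (T : ℝ) (n m : ℕ) : ContDiff ℝ 2 (O3 T n m) := by
  unfold O3
  fun_prop

theorem cont_E2 (T : ℝ) (n m : ℕ) : Continuous (E2 T n m) := by
  unfold E2
  fun_prop

theorem cont_A3 (T : ℝ) (n m : ℕ) : Continuous (A3 T n m) := by
  have := cont_E2 T n m
  unfold A3
  fun_prop

theorem O3_zero (T : ℝ) (n m : ℕ) : O3 T n m 0 = 0 := by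
  unfold O3; simp

theorem smul_osol {T : ℝ} {a G : ℝ → ℝ → ℝ} (c : ℝ) (O : OSol T a G) :
    OSol T (fun x t => c * a x t) (fun x t => c * G x t) where
  hT := O.hT
  smooth := contDiff_const.mul O.smooth
  eqn := by
    have h1 : ∀ {f : ℝ → ℝ → ℝ}, ContDiff ℝ 1 (fun p : ℝ × ℝ => f p.1 p.2) →
        Dx (fun x t => c * f x t) = fun x t => c * Dx f x t := by
      intro f hf; funext x t; exact ((hasDerivAt_x hf x t).const_mul c).deriv
    have h2 : ∀ {f : ℝ → ℝ → ℝ}, ContDiff ℝ 1 (fun p : ℝ × ℝ => f p.1 p.2) →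
        Dt (fun x t => c * f x t) = fun x t => c * Dt f x t := by
      intro f hf; funext x t; exact ((hasDerivAt_t hf x t).const_mul c).deriv
    intro x t
    rw [h1 O.c1, h1 (c2_Dx O.smooth), h2 O.c1, h2 (c2_Dt O.smooth)]
    simp only
    rw [O.eqn]
    ring
  zero := fun x => by rw [O.zero]; ring
  zeroT := fun x => by rw [O.zeroT]; ring
  refl := fun x t => by rw [O.refl]; ring

/-- exponential decay of the derivatives in `L^2` -/
def Dec (T : ℝ) (a : ℝ → ℝ → ℝ) : Prop :=
  ∃ α : ℝ, 0 < α ∧ ∃ C X : ℝ, ∀ x, X ≤ x →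
    nrm T (Dx a x) + nrm T (Dt a x) ≤ C * exp (-α * x)

theorem Dec.sub {T β : ℝ} {a G s H : ℝ → ℝ → ℝ} (O : OSol T a G) (S : OSol T s H)
    (hβ : 0 < β) (ha : Dec T a) (h1 : EB T β (Dx s)) (h2 : EB T β (Dt s)) :
    Dec T (fun x t => a x t - s x t) := by
  obtain ⟨α, hα, C, X, ha⟩ := ha
  obtain ⟨C1, X1, h1⟩ := nrm_of_eb O.hT.le (fun x => cont_slice S.cx x) h1
  obtain ⟨C2, X2, h2⟩ := nrm_of_eb O.hT.le (fun x => cont_slice S.ct x) h2
  refine ⟨min α β, lt_min hα hβ, |C| + |C1| + |C2|, max (max X X1) (max X2 0), fun x hx => ?_⟩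
  have hx1 : X ≤ x := (le_max_left _ _).trans ((le_max_left _ _).trans hx)
  have hx2 : X1 ≤ x := (le_max_right _ _).trans ((le_max_left _ _).trans hx)
  have hx3 : X2 ≤ x := (le_max_left _ _).trans ((le_max_right _ _).trans hx)
  have hx4 : 0 ≤ x := (le_max_right _ _).trans ((le_max_right _ _).trans hx)
  have e1 : exp (-α * x) ≤ exp (-min α β * x) := by
    apply exp_le_exp.2
    nlinarith [min_le_left α β]
  have e2 : exp (-β * x) ≤ exp (-min α β * x) := by
    apply exp_le_exp.2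
    nlinarith [min_le_right α β]
  have n1 : nrm T (Dx (fun x t => a x t - s x t) x) ≤ nrm T (Dx a x) + nrm T (Dx s x) := by
    rw [Dx_sub O.c1 S.c1]
    exact nrm_sub_le O.hT.le (cont_slice O.cx x) (cont_slice S.cx x)
  have n2 : nrm T (Dt (fun x t => a x t - s x t) x) ≤ nrm T (Dt a x) + nrm T (Dt s x) := by
    rw [Dt_sub O.c1 S.c1]
    exact nrm_sub_le O.hT.le (cont_slice O.ct x) (cont_slice S.ct x)
  have b0 : C * exp (-α * x) ≤ |C| * exp (-min α β * x) :=
    mul_le_mul (le_abs_self _) e1 (exp_pos _).le (abs_nonneg _)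
  have b1 : C1 * exp (-β * x) ≤ |C1| * exp (-min α β * x) :=
    mul_le_mul (le_abs_self _) e2 (exp_pos _).le (abs_nonneg _)
  have b2 : C2 * exp (-β * x) ≤ |C2| * exp (-min α β * x) :=
    mul_le_mul (le_abs_self _) e2 (exp_pos _).le (abs_nonneg _)
  linarith [ha x hx1, h1 x hx2, h2 x hx3]

theorem eb_Dx_msum {T σ : ℝ} (B : ℕ → ℝ) (h : ∀ j, B j ≠ 0 → σ ≤ lm T j) :
    EB T σ (Dx (msum T B)) := by
  rw [Dx_msum]
  exact eb_modes (Finset.range (JJ T + 1)) (fun j => B j * -lm T j)
    (fun j t => sin (om T j * t)) (fun j => by fun_prop)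
    (fun j _ hj => h j (left_ne_zero_of_mul hj))

theorem eb_Dt_msum {T σ : ℝ} (B : ℕ → ℝ) (h : ∀ j, B j ≠ 0 → σ ≤ lm T j) :
    EB T σ (Dt (msum T B)) := by
  rw [Dt_msum]
  exact eb_modes (Finset.range (JJ T + 1)) (fun j => B j * om T j)
    (fun j t => cos (om T j * t)) (fun j => by fun_prop)
    (fun j _ hj => h j (left_ne_zero_of_mul hj))

/-- the leading term of the odd part -/
theorem leading {T : ℝ} {w : ℝ → ℝ → ℝ} (hT : 0 < T) {n : ℕ}
    {c lam : ℝ} (hlam : 0 < lam) (h1 : lam ^ 2 = 2 - om T n ^ 2)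
    (B : ℕ → ℝ) (hBn : B n = c)
    (hB : ∀ j, B j ≠ 0 → 1 ≤ j ∧ om T j ^ 2 < 2 ∧ lam ≤ lm T j ∧ lm T j < 3 * lam)
    (hod : ∀ σ, σ < 3 * lam → EB T σ (fun x t => od w x t - msum T B x t)) :
    ∃ δ : ℝ, 0 < δ ∧ δ < 2 * lam ∧
      EB T (lam + δ) (fun x t => od w x t - c * sin (om T n * t) * exp (-lam * x)) := by
  have hn2 : om T n ^ 2 < 2 := by nlinarith [sq_pos_of_pos hlam]
  have hln : lm T n = lam := lm_eq hlam h1
  obtain ⟨δ, hδ, hgap⟩ := gap ((Finset.range (JJ T + 1)).erase n) (fun j => B j ≠ 0)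
    (fun j => lm T j) lam (by
      intro j hj hBj
      obtain ⟨-, hj2, hj3, -⟩ := hB j hBj
      refine lt_of_le_of_ne hj3 fun h => ?_
      exact (Finset.mem_erase.1 hj).1 (lm_inj hT hj2 hn2 (by rw [hln, ← h])))
  refine ⟨min δ lam, lt_min hδ hlam, by linarith [min_le_right δ lam], ?_⟩
  have e1 := hod (lam + min δ lam) (by linarith [min_le_right δ lam])
  have e2 : EB T (lam + min δ lam) (fun x t =>
      ∑ j ∈ (Finset.range (JJ T + 1)).erase n, B j * exp (-lm T j * x) * sin (om T j * t)) := by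
    apply eb_modes ((Finset.range (JJ T + 1)).erase n) B (fun j t => sin (om T j * t))
      (fun j => by fun_prop)
    intro j hj hBj
    linarith [hgap j hj hBj, min_le_left δ lam]
  refine (e1.add e2).congr fun x t _ _ => ?_
  have hnJ : n ∈ Finset.range (JJ T + 1) := Finset.mem_range.2 (by have := le_JJ hT hn2; omega)
  unfold msum
  rw [← Finset.add_sum_erase _ _ hnJ, hBn, hln]
  ring

end h89

theorem WSol.three {T : ℝ} {w : ℝ → ℝ → ℝ} (W : WSol T w) (hT : 0 < T) {n m : ℕ}
    {c lam : ℝ} (hm : 1 ≤ m) (hmn : m < n) (hlam : 0 < lam)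
    (h1 : lam ^ 2 = 2 - om T n ^ 2) (h2 : 4 * lam ^ 2 = 2 - om T m ^ 2)
    (h45 : 4 * (n:ℝ) ≠ 5 * m) (h3 : ∀ a : ℕ, (3 * lam) ^ 2 ≠ 2 - om T a ^ 2)
    (B : ℕ → ℝ) (hBn : B n = c)
    (hB : ∀ j, B j ≠ 0 → 1 ≤ j ∧ om T j ^ 2 < 2 ∧ lam ≤ lm T j ∧ lm T j < 3 * lam)
    (hod : ∀ σ, σ < 3 * lam → EB T σ (fun x t => od w x t - msum T B x t)) :
    ∃ δ : ℝ, 0 < δ ∧
      EB T (2 * lam + δ) (fun x t => ev w x t - c ^ 2 * E2 T n m t * exp (-(2 * lam) * x)) ∧
      EB T (3 * lam + δ) (fun x t => od w x t - msum T B x t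
        - c ^ 3 * O3 T n m t * exp (-(3 * lam) * x)) := by
  obtain ⟨δ, hδ, hδ2, hlead⟩ := h89.leading hT hlam h1 B hBn hB hod
  -- abbreviations
  have cs : Continuous fun t : ℝ => c * sin (om T n * t) := by fun_prop
  have ea0 : EB T lam (fun x t => c * sin (om T n * t) * exp (-lam * x)) := EB.profile cs
  have ea : EB T lam (od w) :=
    ((hlead.mono (by linarith : lam ≤ lam + δ)).add ea0).congr fun x t _ _ => by ring
  have ev1 : EB T (2 * lam) (ev w) := W.ev_eb hT hlam ea
  -- order two of the even part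
  have hS : EB T (2 * lam + δ) (fun x t => srcS w x t -
      ∑ i ∈ ({()} : Finset Unit), (fun (_ : Unit) (s : ℝ) => c ^ 2 * (3 * (sin (om T n * s) *
        sin (om T n * s)))) i t * exp (-(fun _ : Unit => 2 * lam) i * x)) := by
    have t1 := (hlead.mul (ea.add ea0)).const_mul 3
    have t2 := ((ea.mul ea).mul ev1).const_mul 3
    have t3 := (ev1.mul ev1).const_mul 3
    have t4 := (ev1.mul ev1).mul ev1
    have s1 := t1.mono (by linarith : 2 * lam + δ ≤ lam + δ + lam)
    have s2 := t2.mono (by linarith : 2 * lam + δ ≤ lam + lam + 2 * lam)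
    have s3 := t3.mono (by linarith : 2 * lam + δ ≤ 2 * lam + 2 * lam)
    have s4 := t4.mono (by linarith : 2 * lam + δ ≤ 2 * lam + 2 * lam + 2 * lam)
    refine ((s1.add s2).add (s3.add s4)).congr fun x t _ _ => ?_
    rw [Finset.sum_singleton]
    have e2 : exp (-(2 * lam) * x) = exp (-lam * x) * exp (-lam * x) := by
      rw [← exp_add]; congr 1; ring
    simp only
    rw [e2]
    unfold srcS
    ring
  have hE := even_expand hT W.sEv W.eqn_ev W.ev_zero W.Dt_ev_zero ({()} : Finset Unit)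
    (fun _ => 2 * lam) (fun (_ : Unit) (s : ℝ) => c ^ 2 * (3 * (sin (om T n * s) *
        sin (om T n * s)))) (fun _ => by fun_prop) (2 * lam + δ) hS
  have hev : EB T (2 * lam + δ)
      (fun x t => ev w x t - c ^ 2 * E2 T n m t * exp (-(2 * lam) * x)) := by
    refine hE.congr fun x t _ _ => ?_
    rw [Finset.sum_singleton, Ef_const_mul, E2_eq hT hm hmn h1 h2]
  -- source of the odd part at order three
  have ev0 : EB T (2 * lam) (fun x t => c ^ 2 * E2 T n m t * exp (-(2 * lam) * x)) :=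
    EB.profile (continuous_const.mul (h89.cont_E2 T n m))
  have hG : EB T (3 * lam + δ) (fun x t => srcA w x t -
      c ^ 3 * (A3 T n m t * exp (-(3 * lam) * x))) := by
    have t1 := ((hlead.mul ev1).add ((hev.mul ea0).mono (by linarith :
      lam + δ + 2 * lam ≤ 2 * lam + δ + lam))).const_mul 6
    have t2 := ((ea.mul ev1).mul ev1).const_mul 3
    have t3 := hlead.mul (((ea.mul ea).add (ea.mul ea0)).add (ea0.mul ea0))
    have s1 := t1.mono (by linarith : 3 * lam + δ ≤ lam + δ + 2 * lam)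
    have s2 := t2.mono (by linarith : 3 * lam + δ ≤ lam + 2 * lam + 2 * lam)
    have s3 := t3.mono (by linarith : 3 * lam + δ ≤ lam + δ + (lam + lam))
    refine ((s1.add s2).add s3).congr fun x t _ _ => ?_
    have e2 : exp (-(2 * lam) * x) = exp (-lam * x) * exp (-lam * x) := by
      rw [← exp_add]; congr 1; ring
    have e3 : exp (-(3 * lam) * x) = exp (-lam * x) * exp (-lam * x) * exp (-lam * x) := by
      rw [← exp_add, ← exp_add]; congr 1; ring
    rw [e2, e3]
    unfold srcA A3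
    ring
  -- the remainder solves a linear equation
  obtain ⟨O', hO1, hO2⟩ := O3_ode hT hm hmn h1 h2 h45
  have OP : OSol T (fun x t => O3 T n m t * exp (-(3 * lam) * x))
      (fun x t => A3 T n m t * exp (-(3 * lam) * x)) :=
    h89.osol_prof hT (h89.smooth_O3 T n m) hO1 hO2 (h89.O3_zero T n m) (O3_refl hT)
  have OM := h89.osol_sub (W.osol hT) (h89.osol_msum hT B)
  have OR := h89.osol_sub OM (h89.smul_osol (c ^ 3) OP)
  set r : ℝ → ℝ → ℝ := fun x t => od w x t - msum T B x t -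
    c ^ 3 * (O3 T n m t * exp (-(3 * lam) * x)) with hr
  have hG' : EB T (3 * lam + δ) (fun x t => srcA w x t - 0 -
      c ^ 3 * (A3 T n m t * exp (-(3 * lam) * x))) := hG.congr fun x t _ _ => by ring
  -- decay of the derivatives
  have hdec : h89.Dec T r := by
    obtain ⟨α, C, X, hα, hd⟩ := W.nn_decay hT
    have d0 : h89.Dec T (od w) := ⟨α, hα, C, X, hd⟩
    have d1 := h89.Dec.sub (W.osol hT) (h89.osol_msum hT B) hlam d0
      (h89.eb_Dx_msum B fun j hj => (hB j hj).2.2.1)
      (h89.eb_Dt_msum B fun j hj => (hB j hj).2.2.1)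
    have cO' : Continuous O' := continuous_iff_continuousAt.2 fun t => (hO2 t).continuousAt
    have cO : Continuous (O3 T n m) := (h89.smooth_O3 T n m).continuous
    have e1 : Dx (fun x t => c ^ 3 * (O3 T n m t * exp (-(3 * lam) * x))) =
        fun x t => (c ^ 3 * (-(3 * lam) * O3 T n m t)) * exp (-(3 * lam) * x) := by
      have := h89.Dx_prof (3 * lam) (fun t => c ^ 3 * O3 T n m t)
      funext x t
      have h := congrFun (congrFun this x) t
      rw [show (fun x t => c ^ 3 * (O3 T n m t * exp (-(3 * lam) * x))) =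
        fun x t => c ^ 3 * O3 T n m t * exp (-(3 * lam) * x) by funext x t; ring, h]
      ring
    have e2 : Dt (fun x t => c ^ 3 * (O3 T n m t * exp (-(3 * lam) * x))) =
        fun x t => (c ^ 3 * O' t) * exp (-(3 * lam) * x) := by
      have := h89.Dt_prof (3 * lam) (F := fun t => c ^ 3 * O3 T n m t)
        (F' := fun t => c ^ 3 * O' t) (fun t => (hO1 t).const_mul (c ^ 3))
      rw [← this]
      congr 1
      funext x t
      ring
    apply h89.Dec.sub OM (h89.smul_osol (c ^ 3) OP) (by linarith : 0 < 3 * lam) d1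
    · rw [e1]; exact EB.profile (by fun_prop)
    · rw [e2]; exact EB.profile (by fun_prop)
  obtain ⟨α, hα, hdec⟩ := hdec
  obtain ⟨b, hb, hbE⟩ := OSol.expand OR hα (by linarith : 0 < 3 * lam + δ) hdec hG'
  -- the remainder is small below `3 lam`
  have er : ∀ σ, σ < 3 * lam → EB T σ r := by
    intro σ hσ
    have t1 : EB T (3 * lam) (fun x t => O3 T n m t * exp (-(3 * lam) * x)) :=
      EB.profile (h89.smooth_O3 T n m).continuous
    have t2 := (t1.const_mul (c ^ 3)).mono hσ.le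
    exact (hod σ hσ).sub t2
  have hb3 : ∀ j, b j ≠ 0 → 3 * lam < lm T j := by
    intro j hj
    obtain ⟨hj1, hj2, -⟩ := hb j hj
    by_contra hcon
    push Not at hcon
    have hne : lm T j ≠ 3 * lam := by
      intro h
      apply h3 j
      rw [← h, lm_sq hj2.le]
    have hlt : lm T j < 3 * lam := lt_of_le_of_ne hcon hne
    set σ0 := (lm T j + 3 * lam) / 2 with hσ0
    have hs1 : lm T j < σ0 := by rw [hσ0]; linarith
    have hs2 : σ0 < 3 * lam := by rw [hσ0]; linarith
    have em : EB T σ0 (msum T b) :=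
      ((er σ0 hs2).sub (hbE σ0 (by linarith))).congr fun x t _ _ => by simp only [hr]; ring
    obtain ⟨C, X, hCX⟩ := em
    have hj0 : (0:ℝ) < j := by exact_mod_cast hj1
    set t0 := T / (4 * j) with ht0
    have h0 : 0 ≤ t0 := by positivity
    have hT1 : t0 ≤ T := by
      rw [ht0, div_le_iff₀ (by positivity)]
      have : (1:ℝ) ≤ j := by exact_mod_cast hj1
      nlinarith
    have hsin : sin (om T j * t0) = 1 := by
      have : om T j * t0 = π / 2 := by
        unfold om; rw [ht0]; field_simp; ring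
      rw [this, sin_pi_div_two]
    have hz := exp_indep (Finset.range (JJ T + 1)) (lm T) (fun i => b i * sin (om T i * t0))
      σ0 C X (by
        intro x hx
        have := hCX x hx t0 h0 hT1
        unfold msum at this
        refine le_trans (le_of_eq ?_) this
        congr 1
        apply Finset.sum_congr rfl
        intro i _
        ring) (lm T j) hs1
    have hjJ : j ∈ (Finset.range (JJ T + 1)).filter (fun i => lm T i = lm T j) :=
      Finset.mem_filter.2 ⟨Finset.mem_range.2 (by have := h89.le_JJ hT hj2; omega), rfl⟩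
    rw [Finset.sum_eq_single_of_mem j hjJ, hsin, mul_one] at hz
    · exact hj hz
    · intro i hi hij
      by_cases hbi : b i = 0
      · rw [hbi]; ring
      · exact absurd (h89.lm_inj hT (hb i hbi).2.1 hj2 (Finset.mem_filter.1 hi).2) hij
  obtain ⟨δ', hδ', hgap⟩ := h89.gap (Finset.range (JJ T + 1)) (fun j => b j ≠ 0)
    (fun j => lm T j) (3 * lam) (fun j _ hbj => hb3 j hbj)
  refine ⟨min (δ / 2) δ', lt_min (by linarith) hδ', ?_, ?_⟩
  · exact hev.mono (by linarith [min_le_left (δ / 2) δ'])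
  · have e1 := hbE (3 * lam + min (δ / 2) δ') (by linarith [min_le_left (δ / 2) δ'])
    have e2 : EB T (3 * lam + min (δ / 2) δ') (msum T b) := by
      apply h89.eb_modes (Finset.range (JJ T + 1)) b (fun j t => sin (om T j * t))
        (fun j => by fun_prop)
      intro j hj hbj
      linarith [hgap j hj hbj, min_le_right (δ / 2) δ']
    refine (e1.add e2).congr fun x t _ _ => ?_
    simp only [hr]
    ring

end Phi4
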