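import Pool.Agent.Helper62.Phi4.Final

set_option autoImplicit false

/-! Corollaries: simple sufficient conditions for a period to be non-exceptional. -/

namespace Phi4

open Real

theorem not_exceptional_of_lt {T : ℝ} (h : T < 2 * √14 * π) : ¬ Exceptional T := by
  rintro ⟨m, n, -, -, -, h1, -⟩
  linarith

/-- a number whose square is divisible by 8 is divisible by 4 -/
theorem four_dvd_of_sq {x : ℕ} (h : x ^ 2 % 8 = 0) : x % 4 = 0 := by
  have h1 : x % 8 < 8 := Nat.mod_lt _ (by norm_num)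
  have h2 : x ^ 2 % 8 = (x % 8) ^ 2 % 8 := Nat.pow_mod x 2 8
  rw [h2] at h
  have h3 : x % 4 = x % 8 % 4 := by omega
  rw [h3]
  generalize x % 8 = r at h h1
  interval_cases r <;> simp_all

theorem sq_mod_eight (x : ℕ) : x ^ 2 % 8 = 0 ∨ x ^ 2 % 8 = 1 ∨ x ^ 2 % 8 = 4 := by
  have h1 : x % 8 < 8 := Nat.mod_lt _ (by norm_num)
  have h2 : x ^ 2 % 8 = (x % 8) ^ 2 % 8 := Nat.pow_mod x 2 8
  rw [h2]
  generalize x % 8 = r at h1
  interval_cases r <;> simp

theorem odd_of_sq {x : ℕ} (h : x ^ 2 % 2 = 1) : x % 2 = 1 := by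
  rcases Nat.mod_two_eq_zero_or_one x with h1 | h1
  · rw [Nat.pow_mod, h1] at h
    simp at h
  · exact h1

theorem even_of_sq {x : ℕ} (h : x ^ 2 % 2 = 0) : x % 2 = 0 := by
  rcases Nat.mod_two_eq_zero_or_one x with h1 | h1
  · exact h1
  · rw [Nat.pow_mod, h1] at h
    simp at h

theorem val_two_odd {x : ℕ} (h : x % 2 = 1) : padicValNat 2 x = 0 :=
  padicValNat.eq_zero_of_not_dvd (by omega)

theorem val_two_double {x : ℕ} (h : 0 < x) : padicValNat 2 (2 * x) = padicValNat 2 x + 1 := by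
  have _ : Fact (Nat.Prime 2) := ⟨Nat.prime_two⟩
  rw [padicValNat.mul (by norm_num) (by omega), padicValNat_self, add_comm]

theorem val_two_pos {x : ℕ} (h : 0 < x) (h2 : x % 2 = 0) : 1 ≤ padicValNat 2 x := by
  obtain ⟨y, rfl⟩ : ∃ y, x = 2 * y := ⟨x / 2, by omega⟩
  rw [val_two_double (by omega)]
  omega

/-- `4 n ^ 2 - m ^ 2 = 4 ^ a (8 k + 7)`, `a ≤ 2`, forces `v_2(m) < v_2(n)` -/
theorem val_lt_of_seven {a k m n : ℕ} (ha : a ≤ 2) (hm : 1 ≤ m) (hn : 1 ≤ n)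
    (h : 4 ^ a * (8 * k + 7) + m ^ 2 = 4 * n ^ 2) : padicValNat 2 m < padicValNat 2 n := by
  interval_cases a
  · have h1 : m % 2 = 1 := odd_of_sq (by omega)
    have h2 : n % 2 = 0 := by
      apply even_of_sq
      have h3 := sq_mod_eight m
      have h4 : m ^ 2 % 2 = 1 := by omega
      omega
    rw [val_two_odd h1]
    have := val_two_pos hn h2
    omega
  · obtain ⟨x, rfl⟩ : ∃ x, m = 2 * x := ⟨m / 2, by
      have : m ^ 2 % 2 = 0 := by omega
      have := even_of_sq this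
      omega⟩
    have h1 : 8 * k + 7 + x ^ 2 = n ^ 2 := by
      have : (2 * x) ^ 2 = 4 * x ^ 2 := by ring
      omega
    have h2 := sq_mod_eight x
    have h3 := sq_mod_eight n
    have h4 : n % 4 = 0 := four_dvd_of_sq (by omega)
    have h5 : x % 2 = 1 := odd_of_sq (by omega)
    obtain ⟨y, rfl⟩ : ∃ y, n = 2 * y := ⟨n / 2, by omega⟩
    rw [val_two_double (by omega), val_two_double (by omega), val_two_odd h5]
    have := val_two_pos (x := y) (by omega) (by omega)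
    omega
  · obtain ⟨x, rfl⟩ : ∃ x, m = 2 * x := ⟨m / 2, by
      have : m ^ 2 % 2 = 0 := by omega
      have := even_of_sq this
      omega⟩
    have h1 : 4 * (8 * k + 7) + x ^ 2 = n ^ 2 := by
      have : (2 * x) ^ 2 = 4 * x ^ 2 := by ring
      omega
    have h2 := sq_mod_eight x
    have h3 := sq_mod_eight n
    have h4 : x % 2 = 0 := even_of_sq (by omega)
    have h5 : n % 2 = 0 := even_of_sq (by omega)
    obtain ⟨y, rfl⟩ : ∃ y, n = 2 * y := ⟨n / 2, by omega⟩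
    obtain ⟨z, rfl⟩ : ∃ z, x = 2 * z := ⟨x / 2, by omega⟩
    have h6 : 8 * k + 7 + z ^ 2 = y ^ 2 := by
      have : (2 * z) ^ 2 = 4 * z ^ 2 := by ring
      have : (2 * y) ^ 2 = 4 * y ^ 2 := by ring
      omega
    have h7 := sq_mod_eight z
    have h8 := sq_mod_eight y
    have h9 : y % 4 = 0 := four_dvd_of_sq (by omega)
    have h10 : z % 2 = 1 := odd_of_sq (by omega)
    obtain ⟨w, rfl⟩ : ∃ w, y = 2 * w := ⟨y / 2, by omega⟩
    rw [val_two_double (by omega), val_two_double (by omega), val_two_double (by omega),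
      val_two_double (by omega), val_two_odd h10]
    have := val_two_pos (x := w) (by omega) (by omega)
    omega

theorem not_exceptional_of_five {T : ℝ} {a b : ℕ} (ha : a ≤ 2)
    (h : T ^ 2 = 2 * π ^ 2 * (4 ^ a * (8 * b + 5) : ℕ)) : ¬ Exceptional T := by
  rintro ⟨m, n, h1, h2, h3, -, -, h4, -⟩
  have hpi : (0 : ℝ) < π ^ 2 := by positivity
  have h5 : (4 * (n : ℝ) ^ 2 - (m : ℝ) ^ 2) = 3 * (4 ^ a * (8 * b + 5) : ℕ) := by
    rw [h] at h3
    have h6 : π ^ 2 * ((4 * (n : ℝ) ^ 2 - (m : ℝ) ^ 2) - 3 * (4 ^ a * (8 * b + 5) : ℕ)) = 0 := by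
      linarith
    rcases mul_eq_zero.1 h6 with h7 | h7
    · exact absurd h7 hpi.ne'
    · linarith
  have h8 : 4 ^ a * (8 * (3 * b + 1) + 7) + m ^ 2 = 4 * n ^ 2 := by
    have h9 : ((4 ^ a * (8 * (3 * b + 1) + 7) + m ^ 2 : ℕ) : ℝ) = ((4 * n ^ 2 : ℕ) : ℝ) := by
      push_cast at h5 ⊢
      linarith
    exact_mod_cast h9
  have := val_lt_of_seven ha h1 (by omega) h8
  omega

theorem not_exceptional_of_not_int {T : ℝ} (h : ∀ k : ℕ, T ^ 2 ≠ 2 * π ^ 2 * k) :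
    ¬ Exceptional T := by
  rintro ⟨m, n, h1, h2, h3, -, h4, -⟩
  have _ : Fact (Nat.Prime 3) := ⟨Nat.prime_three⟩
  have hmn2 : m ^ 2 < n ^ 2 := Nat.pow_lt_pow_left h2 (by norm_num)
  obtain ⟨N, hN⟩ : ∃ N : ℕ, N + m ^ 2 = 4 * n ^ 2 := ⟨4 * n ^ 2 - m ^ 2, by omega⟩
  have hNR : 4 * (n : ℝ) ^ 2 - (m : ℝ) ^ 2 = N := by
    have : ((N + m ^ 2 : ℕ) : ℝ) = ((4 * n ^ 2 : ℕ) : ℝ) := by rw [hN]
    push_cast at this
    linarith
  have key : N % 3 = 0 := by
    have e1 : n % 3 = 0 ↔ m % 3 = 0 := by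
      rw [← Nat.dvd_iff_mod_eq_zero, ← Nat.dvd_iff_mod_eq_zero,
        dvd_iff_padicValNat_ne_zero (by omega), dvd_iff_padicValNat_ne_zero (by omega), h4]
    have e2 : n ^ 2 % 3 = (n % 3) ^ 2 % 3 := Nat.pow_mod n 2 3
    have e3 : m ^ 2 % 3 = (m % 3) ^ 2 % 3 := Nat.pow_mod m 2 3
    have e4 : n % 3 < 3 := Nat.mod_lt _ (by norm_num)
    have e5 : m % 3 < 3 := Nat.mod_lt _ (by norm_num)
    generalize n % 3 = r at e1 e2 e4
    generalize m % 3 = s at e1 e3 e5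
    interval_cases r <;> interval_cases s <;> simp at e1 e2 e3 <;> omega
  apply h (N / 3)
  have h6 : ((N / 3 : ℕ) : ℝ) * 3 = N := by
    have : N / 3 * 3 = N := by omega
    exact_mod_cast this
  rw [h3, hNR, ← h6]
  ring

end Phi4
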